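import Pool.Agent.Y963.LP.Stm

set_option autoImplicit false

namespace Pool.Agent.Y963.LP

open Finset SimpleGraph

section Abs

variable {D : Type} [Fintype D] [DecidableEq D]

/-- the first return has no fixed point at a dart if there is another dart of `S` in the cycle -/
theorem ret_ne {s : Equiv.Perm D} {S : Finset D} {t : Equiv.Perm {d // d ∈ S}}
    (ht : IsReturn s S t) (e : {d // d ∈ S}) (e' : D) (he' : e' ∈ S) (hne : e' ≠ e)
    (hs : s.SameCycle e e') : t e ≠ e := by
  intro h
  obtain ⟨k, hk1, hk, hmin⟩ := ht e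
  rw [h] at hk
  obtain ⟨n, hn⟩ := hs.exists_nat_pow_eq
  -- reduce n mod k
  have key : ∀ m : ℕ, (s ^ (k * m)) (e : D) = e := by
    intro m
    induction m with
    | zero => simp
    | succ m ih => rw [Nat.mul_succ, pow_add, Equiv.Perm.mul_apply, ← hk, ih]
  have h2 : (s ^ (n % k)) (e : D) = e' := by
    have : (s ^ n) (e : D) = (s ^ (n % k)) ((s ^ (k * (n / k))) (e : D)) := by
      rw [← Equiv.Perm.mul_apply, ← pow_add, Nat.mod_add_div]
    rw [key] at this
    rw [← this, hn]
  rcases Nat.eq_zero_or_pos (n % k) with h0 | h0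
  · rw [h0] at h2
    exact hne (by simpa using h2.symm)
  · exact hmin (n % k) h0 (Nat.mod_lt _ hk1) (h2 ▸ he')

end Abs

variable {V : Type} [Fintype V] [DecidableEq V] {G : SimpleGraph V} [DecidableRel G.Adj]

/-- number of darts inside `W` starting at `v` -/
theorem card_at (a : Equiv.Perm G.Dart) (ha : ∀ d : G.Dart, a d = d.symm) (W : Finset V) (v : V)
    (hv : v ∈ W) :
    ((inner (fun d : G.Dart => d.fst) a W).filter fun d => d.fst = v).card = degIn G W v := by
  unfold degIn
  refine Finset.card_bij (fun d _ => d.snd) ?_ ?_ ?_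
  · intro d hd
    rw [mem_filter] at hd
    obtain ⟨h1, h2⟩ := hd
    simp only [inner, mem_filter, mem_univ, true_and, ha] at h1
    rw [mem_filter]
    exact ⟨h1.2, h2 ▸ d.adj⟩
  · intro d hd e he h
    rw [mem_filter] at hd he
    exact Dart.ext _ _ (Prod.ext (hd.2.trans he.2.symm) h)
  · intro w hw
    rw [mem_filter] at hw
    refine ⟨⟨(v, w), hw.2⟩, ?_, rfl⟩
    rw [mem_filter]
    refine ⟨?_, rfl⟩
    simp only [inner, mem_filter, mem_univ, true_and, ha]
    exact ⟨hv, hw.1⟩

/-- The main step. -/
theorem main (hRET : S_RET) (hEUL : S_EUL) (hCNT : S_CNT) (hCOL : S_COL) (hEVEN : S_EVEN)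
    (hBD : S_BD) (g : ℕ) (hg : 1 ≤ g) (a s : Equiv.Perm G.Dart) (ha : ∀ d : G.Dart, a d = d.symm)
    (hs : ∀ d d' : G.Dart, s.SameCycle d d' ↔ d.fst = d'.fst) (hconn : G.Connected)
    (heul : (4 : ℤ) - 4 * g ≤ 2 * (Fintype.card V : ℤ) - Fintype.card G.Dart +
      2 * (orbits (s * a) : ℤ))
    (hev : ∀ d, Even (Function.minimalPeriod (s * a) d))
    (hN : ∀ (v : V) (p : G.Walk v v), p.IsCycle →
      ¬ Contractible (fun d : G.Dart => d.fst) a s p.darts → 50 * g ≤ p.length)
    {C : Type} (L : V → Finset C) (hL : ∀ v, 4 ≤ (L v).card) :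
    ∃ c : V → C, (∀ v, c v ∈ L v) ∧ ∀ u v, G.Adj u v → c u ≠ c v := by
  classical
  by_contra hcon
  obtain ⟨W, hWne, hdeg, hsq⟩ := hCOL V C G L hL hcon
  have haa : ∀ d, a (a d) = d := fun d => by rw [ha, ha]; exact d.symm_symm
  have hane : ∀ d, a d ≠ d := fun d => by rw [ha]; exact d.symm_ne
  set o : G.Dart → V := fun d => d.fst with ho
  set S := inner o a W with hS
  have memS : ∀ d : G.Dart, d ∈ S ↔ d.fst ∈ W ∧ d.snd ∈ W := by
    intro d
    simp only [hS, inner, ho, mem_filter, mem_univ, true_and, ha]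
    rfl
  have haS : ∀ d : G.Dart, d ∈ S ↔ a d ∈ S := by
    intro d
    rw [memS, memS, ha]
    exact and_comm
  -- no triangles
  have htri : ∀ u v w : V, G.Adj u v → G.Adj v w → G.Adj w u → False := by
    intro u v w h1 h2 h3
    let p : G.Walk u u := .cons h1 (.cons h2 (.cons h3 .nil))
    have hp : p.IsCycle := by
      have n1 := h1.ne
      have n2 := h2.ne
      have n3 := h3.ne
      rw [Walk.isCycle_def]
      refine ⟨?_, by simp [p], ?_⟩
      · rw [Walk.isTrail_def]
        simp only [p, Walk.edges_cons, Walk.edges_nil]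
        simp only [List.nodup_cons, List.mem_cons, List.not_mem_nil, or_false, not_false_eq_true,
          List.nodup_nil, and_true, Sym2.eq_iff, not_or, not_and]
        refine ⟨⟨⟨fun h => absurd h n1, fun h => ?_⟩, ⟨fun h => absurd h.symm n3, fun _ => n2⟩⟩,
          ⟨fun h => absurd h n2, fun h => ?_⟩⟩
        · exact absurd h.symm n3
        · exact absurd h.symm n1
      · simp only [p, Walk.support_cons, Walk.support_nil, List.tail_cons]
        simp only [List.nodup_cons, List.mem_cons, List.not_mem_nil, or_false, not_false_eq_true,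
          List.nodup_nil, and_true, not_or]
        exact ⟨⟨n2, n1.symm⟩, n3⟩
    have hlen : p.length = 3 := rfl
    have hc : Contractible o a s p.darts := by
      by_contra hnc
      have := hN u p hp hnc
      omega
    have h4 := hEVEN G.Dart V o a s hev p.darts hc
    rw [Walk.length_darts, hlen] at h4
    exact absurd h4 (by decide)
  obtain ⟨t, ht⟩ := hRET G.Dart s S
  set aS : Equiv.Perm {d // d ∈ S} := a.subtypePerm (fun d => (haS d).symm) with haSdef
  set f : Equiv.Perm {d // d ∈ S} := t * aS with hf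
  have hfd : ∀ (d : {d // d ∈ S}) (h : a (d : G.Dart) ∈ S), f d = t ⟨a d, h⟩ := by
    intro d h
    rfl
  have htf : ∀ d : {d // d ∈ S}, (t d : G.Dart).fst = (d : G.Dart).fst := by
    intro d
    obtain ⟨k, -, hk, -⟩ := ht d
    rw [hk]
    refine ((hs _ _).1 ?_).symm
    exact ⟨k, by simp⟩
  have hff : ∀ d : {d // d ∈ S}, (f d : G.Dart).fst = (d : G.Dart).snd := by
    intro d
    rw [hfd d ((haS _).1 d.2), htf]
    show (a (d : G.Dart)).fst = _
    rw [ha]; rfl
  -- another dart at each vertex
  have hother : ∀ e : {d // d ∈ S}, ∃ e' : G.Dart, e' ∈ S ∧ e' ≠ e ∧ e'.fst = (e : G.Dart).fst := by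
    intro e
    have hv : (e : G.Dart).fst ∈ W := ((memS _).1 e.2).1
    have h1 := hdeg _ hv
    rw [← card_at a ha W _ hv] at h1
    obtain ⟨e', he', hne⟩ := Finset.exists_mem_ne (s := (inner (fun d : G.Dart => d.fst) a W).filter
      fun d => d.fst = (e : G.Dart).fst) (by omega) (e : G.Dart)
    rw [mem_filter] at he'
    exact ⟨e', he'.1, hne, he'.2⟩
  have hfne : ∀ d : {d // d ∈ S}, (f d : G.Dart) ≠ a (d : G.Dart) := by
    intro d h
    have hadS := (haS _).1 d.2
    obtain ⟨e', he', hne, hfst⟩ := hother ⟨a d, hadS⟩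
    refine ret_ne ht ⟨a d, hadS⟩ e' he' hne ((hs _ _).2 hfst.symm) ?_
    rw [← hfd d hadS]
    exact Subtype.ext h
  -- vertices of consecutive darts
  have hadj : ∀ d : {d // d ∈ S}, G.Adj (d : G.Dart).fst (f d : G.Dart).fst := by
    intro d
    rw [hff]
    exact (d : G.Dart).adj
  have hdist : ∀ d : {d // d ∈ S}, (d : G.Dart).fst ≠ (f (f d) : G.Dart).fst := by
    intro d h
    apply hfne d
    rw [ha]
    refine Dart.ext _ _ (Prod.ext ?_ ?_)
    · exact hff d
    · show (f d : G.Dart).snd = (d : G.Dart).fst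
      rw [h, hff]
  have hno : ∀ d : {d // d ∈ S}, ¬ G.Adj (d : G.Dart).fst (f (f d) : G.Dart).fst := by
    intro d h
    exact htri _ _ _ (hadj d) (hadj (f d)) h.symm
  set B : Finset {d // d ∈ S} := Finset.univ.filter fun d => 5 ≤ degIn G W (d : G.Dart).fst with hB
  have hcnt := hCNT {d // d ∈ S} f B
    (by
      intro d
      refine ⟨fun h => ?_, fun h => ?_, fun h => ?_⟩
      · have := hadj d
        rw [h] at this
        exact this.ne rfl
      · exact hdist d (by rw [h])
      · have h1 := hadj (f (f d))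
        rw [h] at h1
        exact hno d h1.symm)
    (by
      intro d h
      have m0 := ((memS _).1 d.2).1
      have m1 := ((memS _).1 (f d).2).1
      have m2 := ((memS _).1 (f (f d)).2).1
      have m3 := ((memS _).1 (f (f (f d))).2).1
      have h4 := hadj (f (f (f d)))
      rw [h] at h4
      have := hsq _ _ _ _ m0 m1 m2 m3 (hdist d) (hdist (f d)) (hadj d) (hadj _) (hadj _) h4
        (hno d) (hno (f d))
      simpa [hB] using this)
  have hcardS : Fintype.card {d // d ∈ S} = S.card := Fintype.card_coe S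
  -- the number of darts
  have hsum : S.card = ∑ v ∈ W, degIn G W v := by
    rw [Finset.card_eq_sum_card_fiberwise (f := fun d : G.Dart => d.fst) (t := W)
      (fun d hd => ((memS d).1 hd).1)]
    exact Finset.sum_congr rfl fun v hv => card_at a ha W v hv
  have hBcard : B.card ≤ ∑ v ∈ W, 5 * (degIn G W v - 4) := by
    have e1 : B.card = (S.filter fun d : G.Dart => 5 ≤ degIn G W d.fst).card := by
      rw [hB]
      rw [← Finset.card_map (Function.Embedding.subtype _)]
      congr 1
      ext d
      simp only [mem_map, mem_filter, mem_univ, true_and, Function.Embedding.coe_subtype,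
        Subtype.exists, exists_and_left, exists_prop, exists_eq_right_right]
      tauto
    rw [e1]
    have e2 := Finset.card_eq_sum_card_fiberwise (f := fun d : G.Dart => d.fst) (t := W)
      (s := S.filter fun d : G.Dart => 5 ≤ degIn G W d.fst)
      (fun d hd => ((memS d).1 (mem_filter.1 hd).1).1)
    rw [e2]
    refine Finset.sum_le_sum fun v hv => ?_
    rcases le_or_gt 5 (degIn G W v) with h5 | h5
    · calc _ ≤ (S.filter fun d : G.Dart => d.fst = v).card := by
            refine Finset.card_le_card fun d hd => ?_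
            rw [mem_filter, mem_filter] at hd
            rw [mem_filter]
            exact ⟨hd.1.1, hd.2⟩
        _ = degIn G W v := card_at a ha W v hv
        _ ≤ _ := by omega
    · have : ((S.filter fun d : G.Dart => 5 ≤ degIn G W d.fst).filter fun d => d.fst = v) = ∅ := by
        ext d
        simp only [mem_filter, notMem_empty, iff_false, not_and]
        rintro ⟨_, h1⟩ h2
        rw [h2] at h1
        omega
      rw [this]
      simp
  have hB5 : B.card + 20 * W.card ≤ 5 * S.card := by
    have e : ∑ v ∈ W, 5 * (degIn G W v - 4) + 20 * W.card = 5 * S.card := by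
      rw [hsum, Finset.mul_sum, Finset.card_eq_sum_ones, Finset.mul_sum, ← Finset.sum_add_distrib]
      refine Finset.sum_congr rfl fun v hv => ?_
      have := hdeg v hv
      omega
    omega
  have hS4 : 4 * W.card ≤ S.card := by
    rw [hsum, Finset.card_eq_sum_ones, Finset.mul_sum]
    refine Finset.sum_le_sum fun v hv => ?_
    have := hdeg v hv
    omega
  have hWpos : 1 ≤ W.card := hWne.card_pos
  have hSne : S.Nonempty := by
    rw [← Finset.card_pos]
    omega
  have hreach : ∀ u v : V, Relation.ReflTransGen (fun u v => ∃ d, o d = u ∧ o (a d) = v) u v := by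
    intro u v
    obtain ⟨p⟩ := hconn.preconnected u v
    induction p with
    | nil => exact .refl
    | cons h p ih =>
      refine .head ⟨⟨(_, _), h⟩, rfl, ?_⟩ ih
      simp only [ho, ha]
      rfl
  obtain ⟨E1, E2⟩ := hEUL G.Dart V o a s haa hane hs hreach W hWne t ht f hfd hSne
  have E1' := E1 g heul
  rw [hcardS] at hcnt
  obtain ⟨c4, c5⟩ := hcnt
  have hfin : W.card ≤ 50 * (g - 1) := by
    have c4' : (4 : ℤ) * orbits f ≤ S.card := by exact_mod_cast c4
    have c5' : (5 : ℤ) * orbits f ≤ S.card + B.card := by exact_mod_cast c5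
    have b5 : (B.card : ℤ) + 20 * W.card ≤ 5 * S.card := by exact_mod_cast hB5
    have s4 : (4 : ℤ) * W.card ≤ S.card := by exact_mod_cast hS4
    zify [hg]
    linarith
  have hcyc : ∀ (v : V) (p : G.Walk v v), p.IsCycle → p.length ≤ W.card →
      Contractible o a s p.darts := by
    intro v p hp hl
    by_contra hnc
    have := hN v p hp hnc
    omega
  have E2' := E2 (hBD V G a s ha hs W hcyc)
  have c4' : (4 : ℤ) * orbits f ≤ S.card := by exact_mod_cast c4
  have s4 : (4 : ℤ) * W.card ≤ S.card := by exact_mod_cast hS4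
  linarith

end Pool.Agent.Y963.LP
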