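import Mathlib

set_option autoImplicit false

/-!
Statements for the theorem: even-faced graphs on an orientable surface of genus `g` all of whose
noncontractible cycles have length at least `50 g` are 4-list colourable.
-/

namespace Pool.Agent.Y963.LP

open Finset

/-! ### Abstract darts

`D` darts, `V` vertices, `o` the origin of a dart, `a` the reversal, `s` the rotation. -/

/-- The number of cycles (orbits, fixed points included) of a permutation. -/
noncomputable def orbits {D : Type} (s : Equiv.Perm D) : ℕ :=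
  Nat.card (Quotient (Equiv.Perm.SameCycle.setoid s))

/-- `t` is the permutation of `S` induced by `s` (first return). -/
def IsReturn {D : Type} (s : Equiv.Perm D) (S : Finset D) (t : Equiv.Perm {d // d ∈ S}) : Prop :=
  ∀ d : {d // d ∈ S}, ∃ k : ℕ, 1 ≤ k ∧ (t d : D) = (s ^ k) (d : D) ∧
    ∀ j : ℕ, 1 ≤ j → j < k → (s ^ j) (d : D) ∉ S

/-- The darts with both ends in `W`. -/
def inner {D V : Type} [Fintype D] [DecidableEq V] (o : D → V) (a : Equiv.Perm D) (W : Finset V) :
    Finset D :=
  Finset.univ.filter fun d => o d ∈ W ∧ o (a d) ∈ W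

/-- A symmetric mod 2 function on the darts is a cycle. -/
def IsCyc {D V : Type} [Fintype D] [DecidableEq V] (o : D → V) (a : Equiv.Perm D)
    (z : D → ZMod 2) : Prop :=
  (∀ d, z (a d) = z d) ∧ ∀ v, ∑ d ∈ Finset.univ.filter (fun d => o d = v), z d = 0

/-- A symmetric mod 2 function on the darts is a sum of boundaries of faces. -/
def IsBd {D : Type} (s a : Equiv.Perm D) (z : D → ZMod 2) : Prop :=
  ∃ x : D → ZMod 2, (∀ d, x (s (a d)) = x d) ∧ ∀ d, z d = x d + x (a d)

/-- Existence of the induced permutation. -/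
def S_RET : Prop := ∀ (D : Type) [Fintype D] [DecidableEq D] (s : Equiv.Perm D) (S : Finset D),
  ∃ t : Equiv.Perm {d // d ∈ S}, IsReturn s S t

/-- Euler inequality for the subgraph on `W`: the genus does not increase, and it is zero if all
its cycles are boundaries. `f` is the face permutation of the subgraph. -/
def S_EUL : Prop := ∀ (D V : Type) [Fintype D] [DecidableEq D] [Fintype V] [DecidableEq V]
  (o : D → V) (a s : Equiv.Perm D), (∀ d, a (a d) = d) → (∀ d, a d ≠ d) →
  (∀ d d', s.SameCycle d d' ↔ o d = o d') →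
  (∀ u v, Relation.ReflTransGen (fun u v => ∃ d, o d = u ∧ o (a d) = v) u v) →
  ∀ (W : Finset V), W.Nonempty → ∀ (t : Equiv.Perm {d // d ∈ inner o a W}),
  IsReturn s (inner o a W) t →
  ∀ (f : Equiv.Perm {d // d ∈ inner o a W}),
  (∀ (d : {d // d ∈ inner o a W}) (h : a (d : D) ∈ inner o a W), f d = t ⟨a d, h⟩) →
  (inner o a W).Nonempty →
  (∀ g : ℤ, 4 - 4 * g ≤ 2 * (Fintype.card V : ℤ) - Fintype.card D + 2 * (orbits (s * a) : ℤ) →
    4 - 4 * g ≤ 2 * (W.card : ℤ) - (inner o a W).card + 2 * (orbits f : ℤ)) ∧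
  ((∀ z : D → ZMod 2, IsCyc o a z → (∀ d, d ∉ inner o a W → z d = 0) → IsBd s a z) →
    4 ≤ 2 * (W.card : ℤ) - (inner o a W).card + 2 * (orbits f : ℤ))

/-- Counting orbits. -/
def S_CNT : Prop := ∀ (D : Type) [Fintype D] [DecidableEq D] (f : Equiv.Perm D) (B : Finset D),
  (∀ d, f d ≠ d ∧ f (f d) ≠ d ∧ f (f (f d)) ≠ d) →
  (∀ d, f (f (f (f d))) = d → d ∈ B ∨ f d ∈ B ∨ f (f d) ∈ B ∨ f (f (f d)) ∈ B) →
  4 * orbits f ≤ Fintype.card D ∧ 5 * orbits f ≤ Fintype.card D + B.card

/-- The degree of `v` in the subgraph induced by `W`. -/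
def degIn {V : Type} [DecidableEq V] (G : SimpleGraph V) [DecidableRel G.Adj] (W : Finset V)
    (v : V) : ℕ :=
  (W.filter fun w => G.Adj v w).card

/-- A minimal set of vertices that is not colourable from lists with four colours. -/
def S_COL : Prop := ∀ (V C : Type) [Fintype V] [DecidableEq V] [DecidableEq C]
  (G : SimpleGraph V) [DecidableRel G.Adj] (L : V → Finset C), (∀ v, 4 ≤ (L v).card) →
  (¬ ∃ c : V → C, (∀ v, c v ∈ L v) ∧ ∀ u v, G.Adj u v → c u ≠ c v) →
  ∃ W : Finset V, W.Nonempty ∧ (∀ v ∈ W, 4 ≤ degIn G W v) ∧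
    ∀ p q r t : V, p ∈ W → q ∈ W → r ∈ W → t ∈ W → p ≠ r → q ≠ t →
      G.Adj p q → G.Adj q r → G.Adj r t → G.Adj t p → ¬ G.Adj p r → ¬ G.Adj q t →
      5 ≤ degIn G W p ∨ 5 ≤ degIn G W q ∨ 5 ≤ degIn G W r ∨ 5 ≤ degIn G W t

/-! ### Contractible closed walks

Walks are lists of darts. -/

/-- The facial walk starting with the dart `d`; `f` is the face permutation. -/
noncomputable def faceWalk {D : Type} (f : Equiv.Perm D) (d : D) : List D :=
  (List.range (Function.minimalPeriod f d)).map fun i => (f ^ i) d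

/-- `m` is obtained from `l` by inserting a facial walk, or a dart and its reverse, such that both
lists are walks. -/
def Insertion {D V : Type} (o : D → V) (a s : Equiv.Perm D) (l m : List D) : Prop :=
  (l.IsChain fun d e => o (a d) = o e) ∧ (m.IsChain fun d e => o (a d) = o e) ∧
    ∃ l₁ l₂ : List D, ∃ d : D, l = l₁ ++ l₂ ∧
      (m = l₁ ++ [d, a d] ++ l₂ ∨ m = l₁ ++ faceWalk (s * a) d ++ l₂)

/-- The closed walk `l` can be contracted to a point in the surface: it is transformed into the
empty walk by insertions and deletions of facial walks and of darts followed by their reverse. -/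
def Contractible {D V : Type} (o : D → V) (a s : Equiv.Perm D) (l : List D) : Prop :=
  Relation.EqvGen (Insertion o a s) l []

/-- Contractible walks are even if the faces are even. -/
def S_EVEN : Prop := ∀ (D V : Type) [Fintype D] (o : D → V) (a s : Equiv.Perm D),
  (∀ d, Even (Function.minimalPeriod (s * a) d)) → ∀ l : List D, Contractible o a s l →
  Even l.length

/-- If all cycles of `G` of length at most `|W|` are contractible, then the cycles with support in
the darts inside `W` are boundaries. -/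
def S_BD : Prop := ∀ (V : Type) [Fintype V] [DecidableEq V] (G : SimpleGraph V)
  [DecidableRel G.Adj] (a s : Equiv.Perm G.Dart), (∀ d : G.Dart, a d = d.symm) →
  (∀ d d' : G.Dart, s.SameCycle d d' ↔ d.fst = d'.fst) →
  ∀ W : Finset V,
  (∀ (v : V) (p : G.Walk v v), p.IsCycle → p.length ≤ W.card →
    Contractible (fun d : G.Dart => d.fst) a s p.darts) →
  ∀ z : G.Dart → ZMod 2, IsCyc (fun d : G.Dart => d.fst) a z →
    (∀ d, d ∉ inner (fun d : G.Dart => d.fst) a W → z d = 0) → IsBd s a z

end Pool.Agent.Y963.LP
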